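import Pool.Agent.Q311.AR1

set_option autoImplicit false

/-! The mean of the local densities, and the law for few changes of digits. -/

namespace Pool.Agent.Q311.AR

open Finset Filter Topology
open Pool.Agent.TH893.BR
open Pool.Agent.W171.LG
open Pool.Agent.TH890.AS (locDens)
open Pool.Agent.W171.EP (sG mem_PP')
open Pool.Agent.H386R2.Artin (PP artinC)
open Pool.Agent.TH894.SM (change)

lemma locDens_bounds (B : ℤ) (r p : ℕ) : 0 ≤ locDens B r p ∧ locDens B r p ≤ 1 := by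
  classical
  unfold locDens
  split_ifs with h
  · exact ⟨le_rfl, zero_le_one⟩
  · have h1 : ∀ l ∈ (p - 1).primeFactors.filter (fun l => ¬ l ∣ r), 0 ≤ (1 - 1 / (l : ℝ)) ∧ (1 - 1 / (l : ℝ)) ≤ 1 := by
      intro l hl
      rw [mem_filter, Nat.mem_primeFactors] at hl
      have h2 : (1 : ℝ) ≤ l := by exact_mod_cast hl.1.1.one_le
      have h3 : 1 / (l : ℝ) ≤ 1 := by rw [div_le_one (by linarith)]; exact h2
      have h4 : 0 ≤ 1 / (l : ℝ) := by positivity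
      constructor <;> linarith
    exact ⟨prod_nonneg fun l hl => (h1 l hl).1, prod_le_one (fun l hl => (h1 l hl).1) fun l hl => (h1 l hl).2⟩

lemma sum_close (s : Bs) : ∃ p0 : ℕ, ∀ r : ℕ, 0 < r → ∀ x : ℕ,
    |∑ p ∈ PP x, locDens s.B r p - sG (GB s r.primeFactors) x| ≤ p0 := by
  obtain ⟨p0, h0⟩ := locDens_eq s
  refine ⟨p0, fun r hr x => ?_⟩
  unfold sG
  rw [← sum_sub_distrib]
  refine (abs_sum_le_sum_abs _ _).trans ?_
  have h1 : ∀ p ∈ PP x, |locDens s.B r p - GB s r.primeFactors p| ≤ if p < p0 then (1 : ℝ) else 0 := by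
    intro p hp
    have hpp := (mem_PP'.1 hp).2
    split_ifs with h
    · obtain ⟨a1, a2⟩ := locDens_bounds s.B r p
      obtain ⟨b1, b2⟩ := GB_bounds s r.primeFactors p
      rw [abs_le]
      constructor <;> linarith
    · rw [h0 r hr p hpp (not_lt.1 h), sub_self, abs_zero]
  refine (sum_le_sum h1).trans ?_
  rw [← sum_filter, sum_const, nsmul_eq_mul, mul_one]
  have h2 : ((PP x).filter (fun p => p < p0)).card ≤ p0 := by
    calc ((PP x).filter (fun p => p < p0)).card ≤ (range p0).card :=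
          card_le_card fun p hp => mem_range.2 (mem_filter.1 hp).2
      _ = p0 := card_range p0
  exact_mod_cast h2

lemma card_pf_le (A x k : ℕ) (hk : 1 ≤ k) (hkx : k ≤ x ^ A) :
    (k.primeFactors.card : ℝ) ≤ A * (Real.log x / Real.log 2) := by
  have h1 : 2 ^ k.primeFactors.card ≤ k := by
    calc 2 ^ k.primeFactors.card = ∏ _l ∈ k.primeFactors, 2 := by rw [prod_const]
      _ ≤ ∏ l ∈ k.primeFactors, l := prod_le_prod (fun _ _ => by norm_num)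
          fun l hl => (Nat.prime_of_mem_primeFactors hl).two_le
      _ ≤ k := Nat.le_of_dvd hk (Nat.prod_primeFactors_dvd k)
  have h2 : ((2 : ℝ)) ^ k.primeFactors.card ≤ (x : ℝ) ^ A := by exact_mod_cast h1.trans hkx
  have hl2 : 0 < Real.log 2 := Real.log_pos one_lt_two
  have h3 := Real.log_le_log (by positivity) h2
  rw [Real.log_pow, Real.log_pow] at h3
  rw [← mul_div_assoc, le_div_iff₀ hl2]
  exact h3

/-- the mean of the local densities of `B m ^ k` over the primes up to `x` -/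
theorem mean_loc (s : Bs) (A : ℕ) (ε : ℝ) (hε : 0 < ε) : ∃ δ : ℝ, 0 < δ ∧ ∀ L : ℕ, ∃ x₁ : ℕ, ∀ x : ℕ, x₁ ≤ x →
    ∀ k : ℕ, 1 ≤ k → k ≤ x ^ A → ∑ l ∈ k.primeFactors.filter (fun l => L < l), (1 / (l : ℝ)) ≤ δ →
      |∑ p ∈ PP x, locDens s.B k p - s.e k.primeFactors * artinC * (Nat.primeCounting x : ℝ)| ≤
        ε * (Nat.primeCounting x : ℝ) := by
  classical
  obtain ⟨C1, hC1, hm⟩ := mean_B s
  obtain ⟨p0, hp0⟩ := sum_close s
  refine ⟨ε / (4 * C1), by positivity, fun L => ?_⟩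
  obtain ⟨x0, hx0⟩ := hm (ε / (4 * C1)) L (ε / 4) (by positivity)
  have hπ : ∀ᶠ x : ℕ in atTop, (2 * p0 / ε : ℝ) ≤ (Nat.primeCounting x : ℝ) :=
    (Filter.tendsto_atTop.mp (tendsto_natCast_atTop_atTop.comp Nat.tendsto_primeCounting) _)
  have hlog : ∀ᶠ x : ℕ in atTop, (A : ℝ) * (Real.log x / Real.log 2) ≤ (x : ℝ) ^ (1 / 4 : ℝ) := by
    have h1 := (isLittleO_log_rpow_atTop (show (0 : ℝ) < 1 / 4 by norm_num)).bound
      (show (0 : ℝ) < Real.log 2 / (A + 1) by have := Real.log_pos one_lt_two; positivity)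
    filter_upwards [tendsto_natCast_atTop_atTop.eventually (h1.and (eventually_ge_atTop 1))] with x hx
    obtain ⟨h2, h3⟩ := hx
    have h4 : 0 ≤ Real.log (x : ℝ) := Real.log_nonneg h3
    have hl2 : 0 < Real.log 2 := Real.log_pos one_lt_two
    rw [Real.norm_eq_abs, Real.norm_eq_abs, abs_of_nonneg h4, abs_of_nonneg (by positivity)] at h2
    rw [← mul_div_assoc, div_le_iff₀ hl2]
    have hA : (0 : ℝ) ≤ A := Nat.cast_nonneg A
    have hx4 : 0 ≤ (x : ℝ) ^ (1 / 4 : ℝ) := by positivity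
    calc (A : ℝ) * Real.log x ≤ A * (Real.log 2 / (A + 1) * (x : ℝ) ^ (1 / 4 : ℝ)) := by gcongr
      _ = (A / (A + 1)) * (Real.log 2 * (x : ℝ) ^ (1 / 4 : ℝ)) := by ring
      _ ≤ 1 * (Real.log 2 * (x : ℝ) ^ (1 / 4 : ℝ)) := by
          gcongr
          rw [div_le_one (by positivity)]
          linarith
      _ = _ := by ring
  obtain ⟨x2, hx2⟩ := eventually_atTop.1 hπ
  obtain ⟨x3, hx3⟩ := eventually_atTop.1 hlog
  refine ⟨x0 + x2 + x3 + 1, fun x hx k hk hkx hkL => ?_⟩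
  have k1 := hx0 x x k.primeFactors (fun l hl => Nat.prime_of_mem_primeFactors hl)
    ((card_pf_le A x k hk hkx).trans (hx3 x (by omega)))
    (by refine le_trans (le_of_eq ?_) hkL; congr!) (by omega) le_rfl
  have k2 := hp0 k (by omega) x
  have k3 := hx2 x (by omega)
  rw [div_le_iff₀ hε] at k3
  have e : C1 * (ε / (4 * C1)) = ε / 4 := by field_simp
  rw [e] at k1
  have h5 : |∑ p ∈ PP x, locDens s.B k p - s.e k.primeFactors * artinC * (Nat.primeCounting x : ℝ)| ≤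
      |∑ p ∈ PP x, locDens s.B k p - sG (GB s k.primeFactors) x| +
      |sG (GB s k.primeFactors) x - s.e k.primeFactors * artinC * (Nat.primeCounting x : ℝ)| :=
    abs_sub_le _ _ _
  have hp0 : (0 : ℝ) ≤ (Nat.primeCounting x : ℝ) := Nat.cast_nonneg _
  nlinarith

/-- the error term is small -/
lemma err_small (ε : ℝ) (hε : 0 < ε) : ∃ x₁ : ℕ, ∀ x : ℕ, x₁ ≤ x →
    Real.sqrt ((PP x).card : ℝ) * (x : ℝ) ^ (1 / 4 : ℝ) ≤ ε * (Nat.primeCounting x : ℝ) := by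
  have h1 : ∀ᶠ x : ℕ in atTop, (x : ℝ) / (2 * Real.log x) ≤ (Nat.primeCounting x : ℝ) := by
    obtain ⟨y₀, -, h⟩ := Pool.Agent.H386R2.Artin.pi_lower
    exact eventually_atTop.2 ⟨y₀, h⟩
  have h2 : ∀ᶠ x : ℕ in atTop, Real.log (x : ℝ) ≤ ε / 2 * (x : ℝ) ^ (1 / 4 : ℝ) := by
    have h1 := (isLittleO_log_rpow_atTop (show (0 : ℝ) < 1 / 4 by norm_num)).bound
      (show (0 : ℝ) < ε / 2 by positivity)
    filter_upwards [tendsto_natCast_atTop_atTop.eventually (h1.and (eventually_ge_atTop 1))] with x hx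
    obtain ⟨h2, h3⟩ := hx
    have h4 : 0 ≤ Real.log (x : ℝ) := Real.log_nonneg h3
    rw [Real.norm_eq_abs, Real.norm_eq_abs, abs_of_nonneg h4, abs_of_nonneg (by positivity)] at h2
    exact h2
  obtain ⟨x₁, hx₁⟩ := eventually_atTop.1 (h1.and (h2.and (eventually_ge_atTop 2)))
  refine ⟨x₁, fun x hx => ?_⟩
  obtain ⟨a1, a2, a3⟩ := hx₁ x hx
  have hx0 : (0 : ℝ) < x := by
    have : (2 : ℝ) ≤ x := by exact_mod_cast a3
    linarith
  have hl : 0 < Real.log (x : ℝ) := Real.log_pos (by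
    have : (2 : ℝ) ≤ x := by exact_mod_cast a3
    linarith)
  have hcard : ((PP x).card : ℝ) ≤ x := by
    have h3 : (PP x).card ≤ (Icc 1 x).card := by
      apply card_le_card
      intro p hp
      rw [mem_PP'] at hp
      rw [mem_Icc]
      exact ⟨hp.2.one_le, hp.1⟩
    rw [Nat.card_Icc, Nat.add_sub_cancel] at h3
    exact_mod_cast h3
  have h4 : Real.sqrt ((PP x).card : ℝ) ≤ (x : ℝ) ^ (1 / 2 : ℝ) := by
    rw [← Real.sqrt_eq_rpow]
    exact Real.sqrt_le_sqrt hcard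
  calc Real.sqrt ((PP x).card : ℝ) * (x : ℝ) ^ (1 / 4 : ℝ) ≤ (x : ℝ) ^ (1 / 2 : ℝ) * (x : ℝ) ^ (1 / 4 : ℝ) := by
        gcongr
    _ ≤ ε * ((x : ℝ) / (2 * Real.log x)) := by
        rw [mul_div_assoc', le_div_iff₀ (by positivity)]
        have e : (x : ℝ) = (x : ℝ) ^ (1 / 2 : ℝ) * (x : ℝ) ^ (1 / 4 : ℝ) * (x : ℝ) ^ (1 / 4 : ℝ) := by
          rw [← Real.rpow_add hx0, ← Real.rpow_add hx0]
          norm_num
        have h5 : 0 < (x : ℝ) ^ (1 / 2 : ℝ) * (x : ℝ) ^ (1 / 4 : ℝ) := by positivity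
        calc (x : ℝ) ^ (1 / 2 : ℝ) * (x : ℝ) ^ (1 / 4 : ℝ) * (2 * Real.log x)
            ≤ (x : ℝ) ^ (1 / 2 : ℝ) * (x : ℝ) ^ (1 / 4 : ℝ) * (2 * (ε / 2 * (x : ℝ) ^ (1 / 4 : ℝ))) := by gcongr
          _ = ε * ((x : ℝ) ^ (1 / 2 : ℝ) * (x : ℝ) ^ (1 / 4 : ℝ) * (x : ℝ) ^ (1 / 4 : ℝ)) := by ring
          _ = ε * x := by rw [← e]
    _ ≤ ε * (Nat.primeCounting x : ℝ) := by gcongr

open Classical in
/-- The law for a base as in the problem and few changes of digits. -/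
theorem few_mean (b : ℕ) (hb : 2 ≤ b) (A : ℕ) : ∃ c : ℝ, 0 < c ∧ ∀ s : Bs, ∀ ε : ℝ, 0 < ε →
    ∃ δ : ℝ, 0 < δ ∧ ∀ L : ℕ, ∃ x₀ : ℕ, ∀ r K y : ℕ, 2 * r ≤ K → x₀ ≤ y →
    ∀ N : ℕ, N < b ^ K → ∀ f : ℕ → ℕ, (∀ j, f j < b ∧ f j ≠ N / b ^ j % b) →
    ∀ Ex ⊆ powersetCard r (range K), (∀ S ∈ Ex, ∃ x : ℕ, y ≤ x ∧ Real.log x ≤ c * r ∧ ∃ k : ℕ, 1 ≤ k ∧
      k ≤ x ^ A ∧ ∑ l ∈ k.primeFactors.filter (fun l => L < l), (1 / (l : ℝ)) ≤ δ ∧
      ε * (Nat.primeCounting x : ℝ) <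
        |(((PP x).filter (fun p => orderOf ((s.B * ((change b K N f S : ℕ) : ℤ) ^ k : ℤ) : ZMod p) = p - 1)).card : ℝ) -
          s.e k.primeFactors * artinC * (Nat.primeCounting x : ℝ)|) →
    (Ex.card : ℝ) ≤ (y : ℝ) ^ (-(A : ℝ)) * (K.choose r : ℝ) := by
  obtain ⟨c, hc, x₀, h⟩ := Pool.Agent.TH894.ND.artin_few b hb (1 / 4) (by norm_num) (A + 1)
  refine ⟨c, hc, fun s ε hε => ?_⟩
  obtain ⟨δ, hδ, hmean⟩ := mean_loc s A (ε / 2) (by positivity)
  refine ⟨δ, hδ, fun L => ?_⟩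
  obtain ⟨x₁, hx₁⟩ := hmean L
  obtain ⟨x₂, hx₂⟩ := err_small (ε / 2) (by positivity)
  refine ⟨x₀ + x₁ + x₂ + s.B.natAbs + 1, fun r K y hrK hy N hN f hf Ex hEx hExb => ?_⟩
  have key := h r K y hrK (by omega) N hN f hf PP (fun x p hp => ⟨(mem_PP'.1 hp).2, (mem_PP'.1 hp).1⟩) Ex hEx ?_
  · refine key.trans ?_
    have hy1 : (1 : ℝ) ≤ y := by exact_mod_cast (by omega : 1 ≤ y)
    have : (y : ℝ) ^ (-((A + 1 : ℕ) : ℝ)) ≤ (y : ℝ) ^ (-(A : ℝ)) := by
      apply Real.rpow_le_rpow_of_exponent_le hy1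
      push_cast
      linarith
    gcongr
  · intro S hS
    obtain ⟨x, hyx, hxr, k, hk, hkx, hkL, hbad⟩ := hExb S hS
    refine ⟨x, hyx, hxr, s.B, k, ?_, hk, ?_, ?_⟩
    · have h1 : (s.B.natAbs : ℤ) ≤ (x : ℤ) := by exact_mod_cast (by omega : s.B.natAbs ≤ x)
      have h2 : (x : ℤ) ≤ (x : ℤ) ^ (A + 1) := by
        have h3 : x ≤ x ^ (A + 1) := Nat.le_self_pow (by omega) x
        exact_mod_cast h3
      rw [← Int.natCast_natAbs]
      exact h1.trans h2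
    · exact hkx.trans (Nat.pow_le_pow_right (by omega) (by omega))
    · have e1 := hx₁ x (by omega) k hk hkx hkL
      have e2 := hx₂ x (by omega)
      have e3 := abs_sub_le ((((PP x).filter (fun p => orderOf ((s.B * ((change b K N f S : ℕ) : ℤ) ^ k : ℤ) : ZMod p) = p - 1)).card : ℝ))
        (∑ p ∈ PP x, locDens s.B k p) (s.e k.primeFactors * artinC * (Nat.primeCounting x : ℝ))
      linarith

end Pool.Agent.Q311.AR
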