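import Pool.Agent.TH894.ND9
import Pool.Agent.TH893.BR.MeanB

set_option autoImplicit false

/-! The mean of the local densities `locDens B k p` (for a base as in the problem), uniformly in `k`. -/

namespace Pool.Agent.Q311.AR

open Finset Filter Topology
open Pool.Agent.TH893.BR
open Pool.Agent.W171.LG
open Pool.Agent.TH890.AS (locDens pow_iff)
open Pool.Agent.H981R3.LN (ql Sk mem_Sk)
open Pool.Agent.W171.EP (sG)
open Pool.Agent.H386R2.Artin (PP LC_pos artinC)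

/-- `l`-th powers modulo `p` -/
lemma pow_iff' {p : ℕ} [hp : Fact p.Prime] {B : ZMod p} (hB : B ≠ 0) {l : ℕ} (hl : l ∣ p - 1) :
    (∃ y : ZMod p, y ^ l = B) ↔ B ^ ((p - 1) / l) = 1 := by
  have hp1 : 0 < p - 1 := LC_pos
  have hcard : Fintype.card (ZMod p)ˣ = p - 1 := ZMod.card_units p
  obtain ⟨b, hb⟩ : ∃ b : (ZMod p)ˣ, (b : ZMod p) = B := ⟨Units.mk0 _ hB, rfl⟩
  have h1 := pow_iff hcard hl b
  have h2 : B ^ ((p - 1) / l) = 1 ↔ b ^ ((p - 1) / l) = 1 := by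
    rw [← hb, ← Units.val_pow_eq_pow_val, Units.val_eq_one]
  rw [h2, h1]
  have hl0 : l ≠ 0 := by
    rintro rfl
    rw [zero_dvd_iff] at hl
    omega
  constructor
  · rintro ⟨y, hy⟩
    have hy0 : y ≠ 0 := by
      rintro rfl
      rw [zero_pow hl0] at hy
      exact hB hy.symm
    refine ⟨Units.mk0 y hy0, ?_⟩
    apply Units.ext
    rw [Units.val_pow_eq_pow_val, Units.val_mk0, hy, hb]
  · rintro ⟨y, hy⟩
    refine ⟨(y : ZMod p), ?_⟩
    rw [← Units.val_pow_eq_pow_val, hy, hb]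

/-- the two definitions of the local density agree for large `p` -/
lemma locDens_eq (s : Bs) : ∃ p0 : ℕ, ∀ r : ℕ, 0 < r → ∀ p : ℕ, p.Prime → p0 ≤ p →
    locDens s.B r p = GB s r.primeFactors p := by
  classical
  obtain ⟨D, hD, hDp⟩ := GF_triv
  refine ⟨D + s.B.natAbs + 3, fun r hr p hp hp0 => ?_⟩
  have : Fact p.Prime := ⟨hp⟩
  have hpB : s.B.natAbs < p := by omega
  have hβ := B_ne s hpB
  have hGF : GF Q0 Set.univ p := hDp p hp fun h => by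
    have := Nat.le_of_dvd hD h
    omega
  have hp1 : p - 1 ≠ 0 := (LC_pos (p := p)).ne'
  have hnd : ¬ (p : ℤ) ∣ s.B := fun h => hβ ((ZMod.intCast_zmod_eq_zero_iff_dvd s.B p).2 h)
  have e1 : gd Q0 Set.univ (Subgroup.zpowers s.u) 1 r.primeFactors p ↔
      ¬ ((p : ℤ) ∣ s.B ∨ ∃ l : ℕ, l.Prime ∧ l ∣ r ∧ l ∣ p - 1 ∧ ∃ y : ZMod p, y ^ l = (s.B : ZMod p)) := by
    unfold gd
    rw [and_iff_right hGF, not_or, and_iff_right hnd]
    push Not
    constructor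
    · intro h l hl hlr hlp y hy
      refine h l (Nat.mem_primeFactors.2 ⟨hl, hlr, hr.ne'⟩) ?_
      rw [ql_one, PW_B s hpB]
      exact ⟨hlp, (pow_iff' hβ hlp).1 ⟨y, hy⟩⟩
    · intro h l hl hPW
      rw [ql_one, PW_B s hpB] at hPW
      obtain ⟨hl1, hl2, -⟩ := Nat.mem_primeFactors.1 hl
      obtain ⟨y, hy⟩ := (pow_iff' hβ hPW.1).2 hPW.2
      exact h l hl1 hl2 hPW.1 y hy
  have e2 : gT 1 (Tp (⊥ : Subgroup ℚˣ) 1 r.primeFactors p) =
      ∏ l ∈ (p - 1).primeFactors.filter (fun l => ¬ l ∣ r), (1 - 1 / (l : ℝ)) := by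
    unfold gT
    have e3 : Tp (⊥ : Subgroup ℚˣ) 1 r.primeFactors p =
        (p - 1).primeFactors.filter (fun l => ¬ l ∣ r) := by
      unfold Tp
      ext l
      rw [mem_filter, mem_filter, mem_Sk hp1, ql_one, PW_bot, Nat.mem_primeFactors,
        Nat.mem_primeFactors]
      constructor
      · rintro ⟨⟨h1, h2⟩, h3, -⟩
        exact ⟨⟨h1, h2, hp1⟩, fun h => h3 ⟨h1, h, hr.ne'⟩⟩
      · rintro ⟨⟨h1, h2, -⟩, h3⟩
        exact ⟨⟨h1, h2⟩, fun h => h3 h.2.1, h2⟩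
    rw [e3]
    refine prod_congr rfl fun l _ => ?_
    rw [ql_one]
  unfold locDens GB
  by_cases hc : (p : ℤ) ∣ s.B ∨ ∃ l : ℕ, l.Prime ∧ l ∣ r ∧ l ∣ p - 1 ∧ ∃ y : ZMod p, y ^ l = (s.B : ZMod p)
  · rw [if_pos hc, if_neg (fun h => (e1.1 h.2) hc)]
  · rw [if_neg hc, if_pos ⟨hp, e1.2 hc⟩, e2]

end Pool.Agent.Q311.AR
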