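import Pool.Agent.Y933.KG.AlgHat
import Pool.Agent.Y933.KD.Fam

/-!
# The central limit theorem for the digits of random real algebraic numbers (helper311)
-/

set_option autoImplicit false

namespace Pool.Agent.Q311.AlgClt

open Finset Polynomial Filter MeasureTheory Topology
open Pool.Agent.Y933.KD Pool.Agent.Y933.KG
open Pool.Agent.Y933.KD.VdC (ev_le)

/-- the law of `b ^ n₀ G(x)`, `n₀` about `δ₀ log H`, for `x` uniformly distributed on the real algebraic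
numbers of degree `q + 2` and height at most `H` -/
def SL (b : ℕ) (δ₀ : ℝ) (G : ℝ[X]) (T : ℕ → Finset ℝ) (H : ℕ) : Set (Measure ℝ) :=
  {P | (T H).Nonempty ∧ P = unif (T H) (fun x => (b : ℝ) ^ ⌈δ₀ * Real.log H⌉₊ * G.eval x)}

lemma SL_prob (b : ℕ) (δ₀ : ℝ) (G : ℝ[X]) (T : ℕ → Finset ℝ) (H : ℕ) (_hH : 1 ≤ H)
    (P : Measure ℝ) (hP : P ∈ SL b δ₀ G T H) : IsProbabilityMeasure P := by
  obtain ⟨h2, rfl⟩ := hP
  exact unif_prob h2 _

theorem good_law (q b : ℕ) (hb : 2 ≤ b) {δ₀ : ℝ} (hδ₀ : 0 < δ₀) (G : ℝ[X])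
    (hG1 : 1 ≤ G.natDegree) (hG2 : G.natDegree ≤ q + 1) (T : ℕ → Finset ℝ)
    (hT : ∀ H x, x ∈ T H ↔ x ∈ Alg (q + 2) H) (B k : ℕ) (A : ℝ) :
    Good B k A (SL b δ₀ G T) := by
  have hbR : (2 : ℝ) ≤ b := by exact_mod_cast hb
  have hlb : 0 < Real.log b := Real.log_pos (by linarith)
  set W : ℝ := 1 + 1 + A * Real.log B + (1 + δ₀ * Real.log b) with hW
  set K : ℕ := ⌈W⌉₊ + 1 with hK
  set δ1 : ℝ := δ₀ * Real.log b with hδ1
  have hδ10 : 0 < δ1 := by positivity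
  obtain ⟨κ, hκ, ρ, hρ, H0, hH0⟩ := alg_hat q K (by omega) δ1 hδ10
  have hG0 : G ≠ 0 := by
    rintro rfl
    simp at hG1
  have hlead : 0 < |G.leadingCoeff| := abs_pos.2 (leadingCoeff_ne_zero.2 hG0)
  obtain ⟨H1, hH1⟩ := eventually_atTop.1 ((ev_le (∑ i ∈ range (G.natDegree + 1), |G.coeff i|) κ hκ).and
    (ev_le (|G.leadingCoeff|⁻¹) κ hκ))
  refine ⟨min ρ 1, by positivity, max (max H0 H1) (max (max k b) 2), ?_⟩
  intro H hH P hP bb n h hbb hn hh hne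
  obtain ⟨hne', rfl⟩ := hP
  have hHH0 : H0 ≤ H := le_of_max_le_left (le_of_max_le_left hH)
  have hHH1 : H1 ≤ H := le_of_max_le_right (le_of_max_le_left hH)
  have hHk : k ≤ H := le_of_max_le_left (le_of_max_le_left (le_of_max_le_right hH))
  have hHb : b ≤ H := le_of_max_le_right (le_of_max_le_left (le_of_max_le_right hH))
  have h2 : 2 ≤ H := le_of_max_le_right (le_of_max_le_right hH)
  have hHR : (2 : ℝ) ≤ H := by exact_mod_cast h2
  have hH1R : (1 : ℝ) ≤ H := by linarith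
  have hHp : (0 : ℝ) < H := by linarith
  have hlogH : 0 < Real.log H := Real.log_pos (by linarith)
  obtain ⟨hc1, hc2⟩ := hH1 H hHH1
  have hG3 : ∀ i, 1 ≤ i → |G.coeff i| ≤ (H : ℝ) ^ κ := by
    intro i _
    rcases le_or_gt i G.natDegree with hi | hi
    · refine le_trans ?_ hc1
      exact Finset.single_le_sum (f := fun i => |G.coeff i|) (fun _ _ => abs_nonneg _)
        (mem_range.2 (by omega))
    · rw [coeff_eq_zero_of_natDegree_lt hi, abs_zero]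
      positivity
  have hG4 : (H : ℝ) ^ (-κ) ≤ |G.leadingCoeff| := by
    rw [Real.rpow_neg hHp.le]
    rw [inv_le_comm₀ (by positivity) hlead]
    exact hc2
  set l : ℤ := ∑ i, h i * (bb i : ℤ) ^ n i with hl
  have hl1 : (1 : ℝ) ≤ |(l : ℝ)| := by
    have : (1 : ℤ) ≤ |l| := Int.one_le_abs hne
    exact_mod_cast this
  have hl2 : |(l : ℝ)| ≤ (H : ℝ) ^ (1 + 1 + A * Real.log B) := by
    refine (size_freq (by omega) hHk bb n h hbb hn hh).trans ?_
    apply Real.rpow_le_rpow_of_exponent_le hH1R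
    linarith [min_le_right ρ 1]
  set n0 : ℕ := ⌈δ₀ * Real.log H⌉₊ with hn0
  have hb1 : (H : ℝ) ^ δ1 ≤ (b : ℝ) ^ n0 := by
    have e1 : (H : ℝ) ^ δ1 = (b : ℝ) ^ (δ₀ * Real.log H) := by
      rw [Real.rpow_def_of_pos hHp, Real.rpow_def_of_pos (by linarith), hδ1]
      congr 1
      ring
    rw [e1, ← Real.rpow_natCast]
    exact Real.rpow_le_rpow_of_exponent_le (by linarith) (Nat.le_ceil _)
  have hb2 : (b : ℝ) ^ n0 ≤ (H : ℝ) ^ (1 + δ1) := by
    have h3 : (n0 : ℝ) ≤ δ₀ * Real.log H + 1 := (Nat.ceil_lt_add_one (by positivity)).le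
    calc (b : ℝ) ^ n0 = (b : ℝ) ^ ((n0 : ℕ) : ℝ) := (Real.rpow_natCast _ _).symm
      _ ≤ (b : ℝ) ^ (δ₀ * Real.log H + 1) := Real.rpow_le_rpow_of_exponent_le (by linarith) h3
      _ = (H : ℝ) ^ δ1 * b := by
          rw [Real.rpow_add (by linarith), Real.rpow_one, Real.rpow_def_of_pos hHp,
            Real.rpow_def_of_pos (by linarith), hδ1]
          congr 2
          ring
      _ ≤ (H : ℝ) ^ δ1 * (H : ℝ) ^ (1 : ℝ) := by
          rw [Real.rpow_one]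
          have : (b : ℝ) ≤ H := by exact_mod_cast hHb
          gcongr
      _ = _ := by rw [← Real.rpow_add hHp, add_comm]
  have hθ1 : (H : ℝ) ^ δ1 ≤ |(l : ℝ) * (b : ℝ) ^ n0| := by
    rw [abs_mul, abs_of_nonneg (by positivity : (0 : ℝ) ≤ (b : ℝ) ^ n0)]
    have : 0 ≤ (b : ℝ) ^ n0 := by positivity
    nlinarith
  have hθ2 : |(l : ℝ) * (b : ℝ) ^ n0| ≤ (H : ℝ) ^ (K : ℝ) := by
    rw [abs_mul, abs_of_nonneg (by positivity : (0 : ℝ) ≤ (b : ℝ) ^ n0)]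
    calc |(l : ℝ)| * (b : ℝ) ^ n0 ≤ (H : ℝ) ^ (1 + 1 + A * Real.log B) * (H : ℝ) ^ (1 + δ1) := by
          gcongr
      _ = (H : ℝ) ^ W := by rw [← Real.rpow_add hHp, hW, hδ1]
      _ ≤ (H : ℝ) ^ (K : ℝ) := by
          apply Real.rpow_le_rpow_of_exponent_le hH1R
          rw [hK]
          push_cast
          linarith [Nat.le_ceil W]
  have key := (hH0 H hHH0).2 G hG1 hG2 hG3 hG4 _ hθ1 hθ2 (T H) (hT H)
  unfold hat
  rw [integral_unif]
  have hcard0 : (0 : ℝ) < ((T H).card : ℝ) := by exact_mod_cast hne'.card_pos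
  have e1 : ∑ x ∈ T H, Pool.Agent.Y933.KD.e (l * ((b : ℝ) ^ n0 * G.eval x)) =
      ∑ x ∈ T H, Pool.Agent.H469R2.NK.e ((l : ℝ) * (b : ℝ) ^ n0 * G.eval x) := by
    refine sum_congr rfl fun p _ => ?_
    rw [← mul_assoc]
    rfl
  rw [e1, norm_mul, norm_div, norm_one, Complex.norm_natCast]
  rw [one_div, inv_mul_le_iff₀ hcard0]
  refine key.trans ?_
  gcongr
  exact min_le_left _ _

/-- **the central limit theorem for the digits of random real algebraic numbers** -/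
theorem clt_alg (q b : ℕ) (hb : 2 ≤ b) (G : ℝ[X]) (hG1 : 1 ≤ G.natDegree)
    (hG2 : G.natDegree ≤ q + 1) (T : ℕ → Finset ℝ) (hT : ∀ H x, x ∈ T H ↔ x ∈ Alg (q + 2) H)
    {w : ℕ} (hw : 1 ≤ w) (F : ℕ → ℝ)
    (hσ : 0 < cv b w F 0 + 2 * ∑ h ∈ Finset.Ico 1 w, cv b w F h) {A δ : ℝ} (hδ : 0 < δ)
    (s N : ℕ → ℕ) (hN : Tendsto N atTop atTop)
    (hs : ∀ᶠ H : ℕ in atTop, δ * Real.log H ≤ s H)
    (hsN : ∀ᶠ H : ℕ in atTop, (s H : ℝ) + N H ≤ A * Real.log H) (a : ℝ) :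
    Tendsto (fun H : ℕ => (((T H).filter (fun x =>
      ∑ i ∈ range (N H), F (wd b w (s H + i) (G.eval x)) - N H * mn b w F ≤
        a * √((cv b w F 0 + 2 * ∑ h ∈ Finset.Ico 1 w, cv b w F h) * N H))).card : ℝ) /
        (T H).card) atTop
      (𝓝 ((ProbabilityTheory.gaussianReal 0 1).real (Set.Iic a))) := by
  classical
  set δ₀ : ℝ := δ / 2 with hδ₀
  have hδ0 : 0 < δ₀ := by positivity
  have hne : ∀ᶠ H : ℕ in atTop, (T H).Nonempty := by
    obtain ⟨κ, -, ρ, -, H0, hH0⟩ := alg_hat q 1 le_rfl 1 one_pos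
    filter_upwards [eventually_ge_atTop H0] with H hH
    obtain ⟨x, hx⟩ := (hH0 H hH).1
    exact ⟨x, (hT H x).2 hx⟩
  have key := clt_gen (ι := ℝ) (b := b) (w := w) (by omega) hw F hσ (A := A)
    (S := SL b δ₀ G T) (SL_prob b δ₀ G T) (fun k => good_law q b hb hδ0 G hG1 hG2 T hT b k A)
    T (fun H x => (b : ℝ) ^ ⌈δ₀ * Real.log H⌉₊ * G.eval x)
    (by filter_upwards [hne] with H hH using ⟨hH, hH, rfl⟩)
    (fun H => s H - ⌈δ₀ * Real.log H⌉₊) N hN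
    (by
      filter_upwards [hsN] with H hH
      have : ((s H - ⌈δ₀ * Real.log H⌉₊ : ℕ) : ℝ) ≤ s H := by
        exact_mod_cast Nat.sub_le _ _
      linarith) a
  refine key.congr' ?_
  have hlog : ∀ᶠ H : ℕ in atTop, 1 / δ₀ ≤ Real.log H :=
    (Real.tendsto_log_atTop.comp tendsto_natCast_atTop_atTop).eventually_ge_atTop _
  filter_upwards [hs, hlog, eventually_ge_atTop 1] with H h1 h2 h3
  have h4 : ⌈δ₀ * Real.log H⌉₊ ≤ s H := by
    have h5 : (⌈δ₀ * Real.log H⌉₊ : ℝ) < δ₀ * Real.log H + 1 :=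
      Nat.ceil_lt_add_one (by positivity)
    have h6 : 1 ≤ δ₀ * Real.log H := by
      rw [div_le_iff₀ hδ0] at h2
      linarith
    have h7 : (⌈δ₀ * Real.log H⌉₊ : ℝ) ≤ s H := by
      have : δ * Real.log H = δ₀ * Real.log H + δ₀ * Real.log H := by rw [hδ₀]; ring
      linarith
    exact_mod_cast h7
  congr 3
  ext x
  simp only [mem_filter, wd_shift]
  have h5 : ∀ i, ⌈δ₀ * Real.log H⌉₊ + (s H - ⌈δ₀ * Real.log H⌉₊ + i) = s H + i := by
    intro i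
    omega
  simp only [h5]

end Pool.Agent.Q311.AlgClt
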