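import Pool.Agent.Y123.ST.Out

/-!
# Quadratic relations suffice
-/

set_option autoImplicit false
set_option linter.unusedSectionVars false

open Matrix

namespace Pool.Agent.Q311.DRB

open Pool.Agent.TH127.PT Pool.Agent.Y118.HP Pool.Agent.Y123.ST

variable {n N : ℕ}

/-- all homogeneous quadratic relations over `K` between the entries of the `c j` hold on the torsor -/
def NR2 (K : Subfield ℂ) (Q c : Fin N → Matrix (Fin n) (Fin n) ℂ) : Prop :=
  ∀ P : MvPolynomial (Fin N × Fin n × Fin n) K, P.IsHomogeneous 2 →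
    MvPolynomial.eval (fun s => c s.1 s.2.1 s.2.2) (MvPolynomial.map (algebraMap K ℂ) P) = 0 →
    ∀ (X : Fin N → Matrix (Fin n) (Fin n) ℂ) (μ : ℂ), μ ≠ 0 →
      (∀ j, X j * Q j * (X j)ᵀ = μ • (bm ℚ n).map (algebraMap ℚ ℂ)) →
      MvPolynomial.eval (fun s => X s.1 s.2.1 s.2.2) (MvPolynomial.map (algebraMap K ℂ) P) = 0

theorem noquad_of_NR2 {K : Subfield ℂ} {Q c : Fin N → Matrix (Fin n) (Fin n) ℂ} (h : NR2 K Q c) :
    NoQuad K (fun j => (-1 / 2 : ℂ) • Q j) c := by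
  intro P hP hd h0 x hx
  obtain ⟨P0, rfl⟩ := exists_map P hP
  refine h P0 ?_ h0 x.1 x.2 hx.1 fun j => rel_iff.2 (hx.2 j)
  exact hd.of_map (algebraMap K ℂ).injective

theorem EE_ne (hn : Even n) {v : Fin n → ℂ} (hv : v ≠ 0) : EE v ≠ 0 := by
  intro h
  have hdet : IsUnit (jm ℂ n).det := (jm_det hn).isUnit
  obtain ⟨i, hi⟩ : ∃ i, v i ≠ 0 := by
    by_contra hcon
    push Not at hcon
    exact hv (funext hcon)
  have h1 : jm ℂ n *ᵥ v = 0 := by
    funext k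
    have h2 := congrFun (congrFun h k) i
    unfold EE at h2
    rw [vecMulVec_apply, Matrix.zero_apply] at h2
    exact (mul_eq_zero.1 h2).resolve_right hi
  apply hv
  have h3 : (jm ℂ n)⁻¹ *ᵥ (jm ℂ n *ᵥ v) = v := by
    rw [mulVec_mulVec, nonsing_inv_mul _ hdet, one_mulVec]
  rw [← h3, h1, mulVec_zero]

/-- if `K` contains all algebraic numbers, no block is proportional to an algebraic matrix -/
theorem nonprop (hn : Even n) (hn0 : 0 < n) {K : Subfield ℂ} {Q c : Fin N → Matrix (Fin n) (Fin n) ℂ} {lam : ℂ}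
    (hK : ∀ x : ℂ, IsAlgebraic ℚ x → x ∈ K) (hc : (c, lam) ∈ Tor Q) (hq : NoQuad K Q c) (j : Fin N) :
    ¬ ∃ (ν : ℂ) (a : Matrix (Fin n) (Fin n) ℂ), (∀ i k, IsAlgebraic ℚ (a i k)) ∧ c j = ν • a := by
  rintro ⟨ν, a, ha, hca⟩
  have hl : lam ≠ 0 := hc.1
  have hdet : IsUnit (c j).det := (tor_det hn hl (hc.2 j)).1
  have hne : c j ≠ 0 := by
    rintro h0
    rw [h0] at hdet
    have : (0 : Matrix (Fin n) (Fin n) ℂ).det = 0 := by
      have : Nonempty (Fin n) := ⟨⟨0, hn0⟩⟩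
      exact det_zero
    rw [this] at hdet
    exact not_isUnit_zero hdet
  have hν : ν ≠ 0 := by
    rintro rfl
    rw [zero_smul] at hca
    exact hne hca
  have ha0 : a ≠ 0 := by
    rintro rfl
    rw [smul_zero] at hca
    exact hne hca
  -- the relation on the torsor
  have key : ∀ x ∈ Tor Q, ∀ p q : Fin n × Fin n, a q.1 q.2 * x.1 j p.1 p.2 = a p.1 p.2 * x.1 j q.1 q.2 := by
    intro x hx p q
    have hdx : IsUnit (x.1 j).det := (tor_det hn hx.1 (hx.2 j)).1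
    obtain ⟨r, s, hrs⟩ : ∃ r s, x.1 j r s ≠ 0 := by
      by_contra hcon
      push Not at hcon
      have h0 : x.1 j = 0 := by
        ext r s
        exact hcon r s
      rw [h0] at hdx
      have : (0 : Matrix (Fin n) (Fin n) ℂ).det = 0 := by
        have : Nonempty (Fin n) := ⟨⟨0, hn0⟩⟩
        exact det_zero
      rw [this] at hdx
      exact not_isUnit_zero hdx
    let P0 : MvPolynomial (Fin N × Fin n × Fin n) K :=
      (MvPolynomial.C ⟨a q.1 q.2, hK _ (ha _ _)⟩ * MvPolynomial.X (j, p.1, p.2) -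
        MvPolynomial.C ⟨a p.1 p.2, hK _ (ha _ _)⟩ * MvPolynomial.X (j, q.1, q.2)) * MvPolynomial.X (j, r, s)
    have hhom : P0.IsHomogeneous 2 := by
      have h1 : (MvPolynomial.C (⟨a q.1 q.2, hK _ (ha _ _)⟩ : K) * MvPolynomial.X (j, p.1, p.2) :
          MvPolynomial (Fin N × Fin n × Fin n) K).IsHomogeneous 1 := by
        have := (MvPolynomial.isHomogeneous_C (σ := Fin N × Fin n × Fin n)
          (⟨a q.1 q.2, hK _ (ha _ _)⟩ : K)).mul (MvPolynomial.isHomogeneous_X K (j, p.1, p.2))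
        simpa using this
      have h2 : (MvPolynomial.C (⟨a p.1 p.2, hK _ (ha _ _)⟩ : K) * MvPolynomial.X (j, q.1, q.2) :
          MvPolynomial (Fin N × Fin n × Fin n) K).IsHomogeneous 1 := by
        have := (MvPolynomial.isHomogeneous_C (σ := Fin N × Fin n × Fin n)
          (⟨a p.1 p.2, hK _ (ha _ _)⟩ : K)).mul (MvPolynomial.isHomogeneous_X K (j, q.1, q.2))
        simpa using this
      exact (h1.sub h2).mul (MvPolynomial.isHomogeneous_X K (j, r, s))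
    set P := MvPolynomial.map (algebraMap K ℂ) P0 with hPdef
    have hev : ∀ y : Fin N → Matrix (Fin n) (Fin n) ℂ, MvPolynomial.eval (cd y) P =
        (a q.1 q.2 * y j p.1 p.2 - a p.1 p.2 * y j q.1 q.2) * y j r s := by
      intro y
      rw [hPdef]
      simp only [P0, map_mul, map_sub, MvPolynomial.map_C, MvPolynomial.map_X, MvPolynomial.eval_C,
        MvPolynomial.eval_X]
      rfl
    have h3 := hq P (fun m => by rw [hPdef, MvPolynomial.coeff_map]; exact (P0.coeff m).2)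
      (hhom.map _) (by
        rw [hev, hca]
        simp only [Matrix.smul_apply, smul_eq_mul]
        ring) x hx
    rw [hev] at h3
    exact sub_eq_zero.1 ((mul_eq_zero.1 h3).resolve_right hrs)
  -- apply it to `(1 + EE v) c`
  let v : Fin n → ℂ := fun _ => 1
  have hv : v ≠ 0 := by
    intro h
    exact one_ne_zero (congrFun h ⟨0, hn0⟩)
  have hmem : ((fun k => TV v 1 * c k : Fin N → Matrix (Fin n) (Fin n) ℂ), lam) ∈ Tor Q := by
    refine ⟨hl, fun k => ?_⟩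
    have h1 : c k * Q k * (c k)ᵀ = lam • jm ℂ n := hc.2 k
    have h2 : TV v 1 * jm ℂ n * (TV v 1)ᵀ = jm ℂ n := TV_mem v 1
    show TV v 1 * c k * Q k * (TV v 1 * c k)ᵀ = lam • jm ℂ n
    rw [transpose_mul]
    calc TV v 1 * c k * Q k * ((c k)ᵀ * (TV v 1)ᵀ) = TV v 1 * (c k * Q k * (c k)ᵀ) * (TV v 1)ᵀ := by
          simp only [Matrix.mul_assoc]
      _ = lam • jm ℂ n := by rw [h1, Matrix.mul_smul, Matrix.smul_mul, h2]
  obtain ⟨r, s, hrs⟩ : ∃ r s, a r s ≠ 0 := by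
    by_contra hcon
    push Not at hcon
    apply ha0
    ext r s
    exact hcon r s
  obtain ⟨t, hE⟩ : ∃ t : ℂ, EE v * a = t • a := by
    refine ⟨(EE v * a) r s / a r s, ?_⟩
    ext p q
    have h1 : a r s * (TV v 1 * c j) p q = a p q * (TV v 1 * c j) r s := key _ hmem (p, q) (r, s)
    rw [TV_EE, one_smul, Matrix.add_mul, Matrix.one_mul, hca, Matrix.mul_smul] at h1
    simp only [Matrix.add_apply, Matrix.smul_apply, smul_eq_mul] at h1
    have h2 : ν * (a r s * (EE v * a) p q) = ν * (a p q * (EE v * a) r s) := by linear_combination h1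
    have h3 := mul_left_cancel₀ hν h2
    rw [Matrix.smul_apply, smul_eq_mul, div_mul_eq_mul_div, eq_div_iff hrs]
    linear_combination h3
  have hdeta : IsUnit a.det := by
    rw [hca, det_smul] at hdet
    exact isUnit_of_mul_isUnit_right hdet
  have haa : a * a⁻¹ = 1 := mul_nonsing_inv _ hdeta
  have hE2 : EE v = t • (1 : Matrix (Fin n) (Fin n) ℂ) := by
    calc EE v = EE v * a * a⁻¹ := by rw [Matrix.mul_assoc, haa, Matrix.mul_one]
      _ = t • (1 : Matrix (Fin n) (Fin n) ℂ) := by rw [hE, Matrix.smul_mul, haa]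
  have hsq := EE_sq v
  rw [hE2, Matrix.smul_mul, Matrix.mul_smul, Matrix.one_mul, smul_smul] at hsq
  have ht0 : t * t = 0 := by
    have h5 := congrFun (congrFun hsq ⟨0, hn0⟩) ⟨0, hn0⟩
    rw [Matrix.smul_apply, Matrix.one_apply_eq, smul_eq_mul, mul_one, Matrix.zero_apply] at h5
    exact h5
  have ht1 : t = 0 := mul_self_eq_zero.1 ht0
  rw [ht1, zero_smul] at hE2
  exact EE_ne hn hv hE2

/-- either `K` contains all algebraic numbers, or no block is proportional to an algebraic matrix -/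
def Hyp (K : Subfield ℂ) (c : Fin N → Matrix (Fin n) (Fin n) ℂ) : Prop :=
  (∀ x : ℂ, IsAlgebraic ℚ x → x ∈ K) ∨
    ∀ j, ¬ ∃ (ν : ℂ) (a : Matrix (Fin n) (Fin n) ℂ), (∀ i k, IsAlgebraic ℚ (a i k)) ∧ c j = ν • a

theorem quad_out (hn : Even n) (hn0 : 0 < n) (hN : 0 < N) {K : Subfield ℂ} {Q c : Fin N → Matrix (Fin n) (Fin n) ℂ}
    {lam : ℂ} (hK : ∀ x ∈ K, IsAlgebraic ℚ x) (hQ : ∀ j a b, Q j a b ∈ K) (hlam : Transcendental ℚ lam)
    (hc : ∀ j, c j * Q j * (c j)ᵀ = lam • (bm ℚ n).map (algebraMap ℚ ℂ)) (hq : NR2 K Q c) (hyp : Hyp K c) :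
    Om K (blockDiagonal c) (TB Q) := by
  have hlam0 : lam ≠ 0 := by
    rintro rfl
    exact hlam isAlgebraic_zero
  have hc' : (c, lam) ∈ Tor (fun j => (-1 / 2 : ℂ) • Q j) := ⟨hlam0, fun j => rel_iff.1 (hc j)⟩
  have hq' := noquad_of_NR2 hq
  refine ⟨?_, ⟨c, lam, hlam0, rfl, hc⟩, fun T hT hcT => ?_⟩
  · rw [subT_iff, TB_eq]
    exact tor_sub hn hn0 hN (half_mem hQ) hc'
  · rintro _ ⟨X, μ, hμ, rfl, hX⟩
    refine full hn hK (subT_iff.1 hT) (half_mem hQ) hc' hcT hlam ?_ hq' (X, μ) ⟨hμ, fun j => rel_iff.1 (hX j)⟩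
    intro j
    rcases hyp with h | h
    · exact nonprop hn hn0 h hc' hq' j
    · exact h j

theorem quad_cls (hn : Even n) (hn0 : 0 < n) (hN : 0 < N) {K : Subfield ℂ} {Q c : Fin N → Matrix (Fin n) (Fin n) ℂ}
    {lam : ℂ} (hK : ∀ x ∈ K, IsAlgebraic ℚ x) (hQ : ∀ j a b, Q j a b ∈ K) (hlam : Transcendental ℚ lam)
    (hc : ∀ j, c j * Q j * (c j)ᵀ = lam • (bm ℚ n).map (algebraMap ℚ ℂ)) (hq : NR2 K Q c) (hyp : Hyp K c)
    (κ : Type) [Fintype κ] [DecidableEq κ] (m : ℕ) (F : (κ → Fin n × Fin N) → ℚ) :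
    (∃ a : (κ → Fin n × Fin N) → K, ∀ I, lam ^ m * (F I : ℂ) = ∑ I', (∏ k, blockDiagonal c (I k) (I' k)) * (a I' : ℂ)) ↔
      F ∈ Submodule.span ℚ {G | ∃ (e : Fin m × Fin 2 ≃ κ) (b : Fin m → Fin N), G = prB n e b} := by
  have hlam0 : lam ≠ 0 := by
    rintro rfl
    exact hlam isAlgebraic_zero
  have hc' : (c, lam) ∈ Tor (fun j => (-1 / 2 : ℂ) • Q j) := ⟨hlam0, fun j => rel_iff.1 (hc j)⟩
  have hq' := noquad_of_NR2 hq
  have hnon : ∀ j, ¬ ∃ (ν : ℂ) (a : Matrix (Fin n) (Fin n) ℂ), (∀ i k, IsAlgebraic ℚ (a i k)) ∧ c j = ν • a := by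
    intro j
    rcases hyp with h | h
    · exact nonprop hn hn0 h hc' hq' j
    · exact h j
  have h1 := cls_iff_span (κ := κ) (m := m) hn hn0 hN hK (half_mem hQ) hc' hlam hnon hq' F
  have h2 : Submodule.span ℚ {G : (κ → Fin n × Fin N) → ℚ | ∃ (e : Fin m × Fin 2 ≃ κ) (b : Fin m → Fin N), G = prB n e b} =
      Submodule.span ℚ {G | ∃ (e : Fin m × Fin 2 ≃ κ) (b : Fin m → Fin N), G = pr n e b} := by
    apply le_antisymm
    · rw [Submodule.span_le]
      rintro _ ⟨e, b, rfl⟩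
      rw [prB_eq]
      exact Submodule.smul_mem _ _ (Submodule.subset_span ⟨e, b, rfl⟩)
    · rw [Submodule.span_le]
      rintro _ ⟨e, b, rfl⟩
      have h3 : pr n e b = ((-2 : ℚ) ^ m)⁻¹ • prB n e b := by
        rw [prB_eq, smul_smul, inv_mul_cancel₀ (pow_ne_zero _ (by norm_num)), one_smul]
      rw [h3]
      exact Submodule.smul_mem _ _ (Submodule.subset_span ⟨e, b, rfl⟩)
  rw [h2, ← h1]
  constructor
  · rintro ⟨a, ha⟩
    exact ⟨fun I => (a I : ℂ), fun I => (a I).2, ha⟩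
  · rintro ⟨a, ha, h3⟩
    exact ⟨fun I => ⟨a I, ha I⟩, h3⟩

theorem span_eq (κ : Type) [Fintype κ] [DecidableEq κ] (m : ℕ) :
    Submodule.span ℚ {G : (κ → Fin n × Fin N) → ℚ | ∃ (e : Fin m × Fin 2 ≃ κ) (b : Fin m → Fin N), G = prB n e b} =
      Submodule.span ℚ {G | ∃ (e : Fin m × Fin 2 ≃ κ) (b : Fin m → Fin N), G = pr n e b} := by
  apply le_antisymm
  · rw [Submodule.span_le]
    rintro _ ⟨e, b, rfl⟩
    rw [prB_eq]
    exact Submodule.smul_mem _ _ (Submodule.subset_span ⟨e, b, rfl⟩)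
  · rw [Submodule.span_le]
    rintro _ ⟨e, b, rfl⟩
    have h3 : pr n e b = ((-2 : ℚ) ^ m)⁻¹ • prB n e b := by
      rw [prB_eq, smul_smul, inv_mul_cancel₀ (pow_ne_zero _ (by norm_num)), one_smul]
    rw [h3]
    exact Submodule.smul_mem _ _ (Submodule.subset_span ⟨e, b, rfl⟩)

theorem cls_of {K : Subfield ℂ} {Q c : Fin N → Matrix (Fin n) (Fin n) ℂ}
    {lam : ℂ} (hQ : ∀ j a b, Q j a b ∈ K) (hlam : Transcendental ℚ lam)
    (hc : ∀ j, c j * Q j * (c j)ᵀ = lam • (bm ℚ n).map (algebraMap ℚ ℂ))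
    (κ : Type) [Fintype κ] [DecidableEq κ] (m : ℕ) (F : (κ → Fin n × Fin N) → ℚ)
    (hF : F ∈ Submodule.span ℚ {G | ∃ (e : Fin m × Fin 2 ≃ κ) (b : Fin m → Fin N), G = prB n e b}) :
    ∃ a : (κ → Fin n × Fin N) → K, ∀ I, lam ^ m * (F I : ℂ) =
      ∑ I', (∏ k, blockDiagonal c (I k) (I' k)) * (a I' : ℂ) := by
  have hlam0 : lam ≠ 0 := by
    rintro rfl
    exact hlam isAlgebraic_zero
  have hc' : (c, lam) ∈ Tor (fun j => (-1 / 2 : ℂ) • Q j) := ⟨hlam0, fun j => rel_iff.1 (hc j)⟩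
  rw [span_eq] at hF
  obtain ⟨a, ha, h3⟩ := cls_of_span hc' (half_mem hQ) hF
  exact ⟨fun I => ⟨a I, ha I⟩, h3⟩

/-- the field of all algebraic numbers -/
noncomputable def Qb : Subfield ℂ := (algebraicClosure ℚ ℂ).toSubfield

theorem mem_Qb {x : ℂ} : x ∈ Qb ↔ IsAlgebraic ℚ x := by
  show x ∈ algebraicClosure ℚ ℂ ↔ _
  rw [mem_algebraicClosure_iff]

theorem sub_mono {K L : Subfield ℂ} (h : ∀ x ∈ K, x ∈ L) {B : Type} [Fintype B] [DecidableEq B]
    {T : Set (Matrix B B ℂ)} (hT : SubT K T) : SubT L T := by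
  rw [subT_iff] at hT ⊢
  obtain ⟨I, h1, h2⟩ := hT.algebraic
  exact ⟨hT.isUnit, hT.torsor, I, fun p hp m => h _ (h1 p hp m), h2⟩

/-- no quadratic relations over the field of all algebraic numbers -/
theorem quad_Qb (hn : Even n) (hn0 : 0 < n) (hN : 0 < N) {K : Subfield ℂ} {Q c : Fin N → Matrix (Fin n) (Fin n) ℂ}
    {lam : ℂ} (hK : ∀ x ∈ K, IsAlgebraic ℚ x) (hQ : ∀ j a b, Q j a b ∈ K) (hlam : Transcendental ℚ lam)
    (hc : ∀ j, c j * Q j * (c j)ᵀ = lam • (bm ℚ n).map (algebraMap ℚ ℂ)) (hq : NR2 Qb Q c) :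
    Om K (blockDiagonal c) (TB Q) := by
  have hlam0 : lam ≠ 0 := by
    rintro rfl
    exact hlam isAlgebraic_zero
  have hc' : (c, lam) ∈ Tor (fun j => (-1 / 2 : ℂ) • Q j) := ⟨hlam0, fun j => rel_iff.1 (hc j)⟩
  have h1 := quad_out hn hn0 hN (K := Qb) (fun x hx => mem_Qb.1 hx) (fun j a b => mem_Qb.2 (hK _ (hQ j a b))) hlam hc hq
    (Or.inl fun x hx => mem_Qb.2 hx)
  refine ⟨?_, h1.2.1, fun T hT hcT => h1.2.2 T (sub_mono (fun x hx => mem_Qb.2 (hK x hx)) hT) hcT⟩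
  rw [subT_iff, TB_eq]
  exact tor_sub hn hn0 hN (half_mem hQ) hc'

end Pool.Agent.Q311.DRB
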